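import Pool.Agent.Results.MP_916210_gt.BetaOmega

/-! Translation between `C(X, ℝ)` with the induced pointwise topology and `Cp X`. -/

set_option autoImplicit false

namespace Pool.Agent.Q145.LS

open Topology Filter Set Pool.Agent.Results.MP_916210_gt.BetaOmega

/-- pointwise topology on `C(X, ℝ)` -/
abbrev tp (X : Type) [TopologicalSpace X] : TopologicalSpace C(X, ℝ) :=
  TopologicalSpace.induced (fun f : C(X, ℝ) => (f : X → ℝ)) inferInstance

/-- the two descriptions of `C_p` -/
def cv (X : Type) [TopologicalSpace X] : C(X, ℝ) ≃ₗ[ℝ] Cp X where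
  toFun f := ⟨f, f.continuous⟩
  invFun f := ⟨f.1, f.2⟩
  map_add' _ _ := rfl
  map_smul' _ _ := rfl
  left_inv _ := rfl
  right_inv _ := rfl

theorem cv_cont (X : Type) [TopologicalSpace X] :
    @Continuous _ _ (tp X) inferInstance (cv X) := by
  let _ := tp X
  apply Continuous.subtype_mk
  exact continuous_induced_dom

theorem cv_symm_cont (X : Type) [TopologicalSpace X] :
    @Continuous _ _ inferInstance (tp X) (cv X).symm := by
  let _ := tp X
  rw [continuous_induced_rng]
  exact continuous_subtype_val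

theorem lemb {X : Type} [TopologicalSpace X] {A : Set X}
    (h : ∃ φ : C(A, ℝ) →ₗ[ℝ] C(X, ℝ), @Continuous _ _ (tp A) (tp X) (⇑φ) ∧
      ∀ f : C(A, ℝ), ∀ a : A, φ f a = f a) : IsLEmbedded A := by
  obtain ⟨φ, hφ, hφ2⟩ := h
  refine ⟨⟨(cv X).toLinearMap ∘ₗ φ ∘ₗ (cv A).symm.toLinearMap, ?_⟩, ?_⟩
  · exact (@Continuous.comp _ _ _ _ (tp X) _ _ _ (cv_cont X)
      (@Continuous.comp _ _ _ _ (tp A) (tp X) _ _ hφ (cv_symm_cont A)))
  · intro f a
    exact hφ2 _ a

theorem of_lequiv {X Y : Type} [TopologicalSpace X] [TopologicalSpace Y]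
    (h : LEquivalent X Y) : ∃ e : C(X, ℝ) ≃ₗ[ℝ] C(Y, ℝ),
      @Continuous _ _ (tp X) (tp Y) (⇑e) ∧ @Continuous _ _ (tp Y) (tp X) (⇑e.symm) := by
  obtain ⟨L⟩ := h
  refine ⟨(cv X).trans (L.toLinearEquiv.trans (cv Y).symm), ?_, ?_⟩
  · let _ := tp X
    let _ := tp Y
    exact (cv_symm_cont Y).comp (L.continuous.comp (cv_cont X))
  · let _ := tp X
    let _ := tp Y
    exact (cv_symm_cont X).comp (L.symm.continuous.comp (cv_cont Y))

theorem to_lequiv {X Y : Type} [TopologicalSpace X] [TopologicalSpace Y]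
    (h : ∃ e : C(X, ℝ) ≃ₗ[ℝ] C(Y, ℝ),
      @Continuous _ _ (tp X) (tp Y) (⇑e) ∧ @Continuous _ _ (tp Y) (tp X) (⇑e.symm)) :
    LEquivalent X Y := by
  obtain ⟨e, h1, h2⟩ := h
  refine ⟨{ (cv X).symm.trans (e.trans (cv Y)) with
    continuous_toFun := ?_, continuous_invFun := ?_ }⟩
  · exact (@Continuous.comp _ _ _ _ (tp Y) _ _ _ (cv_cont Y)
      (@Continuous.comp _ _ _ _ (tp X) (tp Y) _ _ h1 (cv_symm_cont X)))
  · exact (@Continuous.comp _ _ _ _ (tp X) _ _ _ (cv_cont X)
      (@Continuous.comp _ _ _ _ (tp Y) (tp X) _ _ h2 (cv_symm_cont Y)))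

/-- `OnePoint ℕ` and `ℕ∞` are homeomorphic -/
noncomputable def homeo : OnePoint ℕ ≃ₜ ℕ∞ := by
  let f : OnePoint ℕ → ℕ∞ := fun x => OnePoint.elim x ⊤ (fun n : ℕ => (n : ℕ∞))
  have hf : Continuous f := by
    rw [OnePoint.continuous_iff_from_nat]
    exact ENat.tendsto_natCast_nhds_top
  have hb : Function.Bijective f := by
    constructor
    · intro x y hxy
      induction x using OnePoint.rec with
      | infty =>
        induction y using OnePoint.rec with
        | infty => rfl
        | coe y => exact absurd hxy (ENat.natCast_ne_top y).symm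
      | coe x =>
        induction y using OnePoint.rec with
        | infty => exact absurd hxy (ENat.natCast_ne_top x)
        | coe y =>
          have : ((x : ℕ) : ℕ∞) = (y : ℕ∞) := hxy
          rw [Nat.cast_inj.mp this]
    · intro y
      induction y using ENat.recTopCoe with
      | top => exact ⟨OnePoint.infty, rfl⟩
      | coe n => exact ⟨(n : OnePoint ℕ), rfl⟩
  exact Continuous.homeoOfEquivCompactToT2 (f := Equiv.ofBijective f hb) hf

theorem cp_homeo {X Y : Type} [TopologicalSpace X] [TopologicalSpace Y] (h : X ≃ₜ Y) :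
    LEquivalent X Y := LEquivalent.of_homeo h

end Pool.Agent.Q145.LS
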